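import Pool.Agent.LSG.Stmts

/-! # Squad LSG (MP_005a41_gt), row MAI: no continuous linear map onto a dense subspace -/

set_option autoImplicit false

open MeasureTheory Set Topology

namespace Pool.Agent.LSG.H26

/-- the number of the triples `(x, h, i)` with `x + h ∈ D i` -/
theorem card_triples (k : ℕ) (H : AddSubgroup K) (Hs : Finset K) (hHs : ∀ h, h ∈ Hs ↔ h ∈ H)
    (X : Finset K) (D : Fin k → Set K)
    [Fintype {q : X × Hs × Fin k // (q.1 : K) + (q.2.1 : K) ∈ D q.2.2}] :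
    Fintype.card {q : X × Hs × Fin k // (q.1 : K) + (q.2.1 : K) ∈ D q.2.2} =
      ∑ x ∈ X, ∑ i, Set.ncard {h : K | h ∈ H ∧ x + h ∈ D i} := by
  classical
  have e1 : ∀ (x : K) (i : Fin k), Set.ncard {h : K | h ∈ H ∧ x + h ∈ D i} =
      ∑ h : Hs, if x + (h : K) ∈ D i then 1 else 0 := by
    intro x i
    have h1 : {h : K | h ∈ H ∧ x + h ∈ D i} = ((Hs.filter fun h => x + h ∈ D i : Finset K) : Set K) := by
      ext h
      simp [hHs]
    rw [h1, Set.ncard_coe_finset, Finset.card_filter]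
    exact (Finset.sum_coe_sort Hs (fun h => if x + h ∈ D i then 1 else 0)).symm
  have e2 : Fintype.card {q : X × Hs × Fin k // (q.1 : K) + (q.2.1 : K) ∈ D q.2.2} =
      ∑ q : X × Hs × Fin k, if (q.1 : K) + (q.2.1 : K) ∈ D q.2.2 then 1 else 0 := by
    rw [Fintype.card_of_subtype (Finset.univ.filter fun q : X × Hs × Fin k =>
      (q.1 : K) + (q.2.1 : K) ∈ D q.2.2) (fun q => by simp), Finset.card_filter]
  rw [e2, Fintype.sum_prod_type, ← Finset.sum_coe_sort X]
  refine Finset.sum_congr rfl fun x _ => ?_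
  rw [Fintype.sum_prod_type, Finset.sum_comm]
  refine Finset.sum_congr rfl fun i _ => ?_
  rw [e1]

theorem mai (hR : RpvStmt) (hI : IndStmt) (hE : ExhStmt) (hC : CtlStmt) : MaiStmt := by
  classical
  intro G hG k A B hA hB hlt hD
  obtain ⟨T, hT, hd⟩ := hD
  obtain ⟨c, hc⟩ := hR A B T hT
  have hmG : TopologicalSpace.MetrizableSpace G :=
    inferInstanceAs (TopologicalSpace.MetrizableSpace (G : Set K))
  have hmet : TopologicalSpace.MetrizableSpace B :=
    Topology.IsEmbedding.subtypeVal.metrizableSpace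
  have hli : LinearIndependent ℝ c := hI A B T c hc hd
  obtain ⟨H, A', E, hHf, hHG, hmA, hmE, hAA, hEE, hlt'⟩ := hE G hG k A B hA hB hlt T c hc
  obtain ⟨X, hXG, hXc, hXd, hXlt⟩ :=
    hC G hG H hHf hHG k A' E hmA hmE hlt' (k * (H : Set K).ncard + 1)
  obtain ⟨Hs, hHs⟩ : ∃ Hs : Finset K, ∀ h, h ∈ Hs ↔ h ∈ H :=
    ⟨hHf.toFinset, fun h => by simp⟩
  have hHcard : (H : Set K).ncard = Hs.card := by
    have : (H : Set K) = (Hs : Set K) := by
      ext h
      simp [hHs]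
    rw [this, Set.ncard_coe_finset]
  -- the points of `B`
  have hf : ∀ q : {q : X × Hs × Fin k // (q.1 : K) + (q.2.1 : K) ∈ E q.2.2},
      ∃ b : B, (b.1.1 : K) = (q.1.1 : K) + (q.1.2.1 : K) ∧ b.1.2 = q.1.2.2 ∧
        ∀ a : A, c b a ≠ 0 → (a.1.1 : K) ∈ H ∨ (a.1.1 : K) - ((q.1.1 : K) + (q.1.2.1 : K)) ∈ H := by
    intro q
    have hx : (q.1.1 : K) + (q.1.2.1 : K) ∈ G :=
      G.add_mem (hXG _ q.1.1.2) (hHG ((hHs _).1 q.1.2.1.2))
    obtain ⟨hB', hs⟩ := (hEE q.1.2.2 _ hx).1 q.2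
    exact ⟨⟨_, hB'⟩, rfl, rfl, hs⟩
  choose f hf1 hf2 hf3 using hf
  have hfi : Function.Injective f := by
    intro q q' h
    have h1 : (q.1.1 : K) + (q.1.2.1 : K) = (q'.1.1 : K) + (q'.1.2.1 : K) := by
      rw [← hf1, ← hf1, h]
    have h2 : q.1.2.2 = q'.1.2.2 := by rw [← hf2, ← hf2, h]
    have h3 : (q.1.1 : K) - (q'.1.1 : K) ∈ H := by
      have : (q.1.1 : K) - (q'.1.1 : K) = (q'.1.2.1 : K) - (q.1.2.1 : K) := by
        rw [sub_eq_sub_iff_add_eq_add, h1, add_comm]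
      rw [this]
      exact H.sub_mem ((hHs _).1 q'.1.2.1.2) ((hHs _).1 q.1.2.1.2)
    have h4 : (q.1.1 : K) = (q'.1.1 : K) := hXd _ q.1.1.2 _ q'.1.1.2 h3
    have h5 : (q.1.2.1 : K) = (q'.1.2.1 : K) := by
      rw [h4] at h1
      exact add_left_cancel h1
    exact Subtype.ext (Prod.ext (Subtype.ext h4) (Prod.ext (Subtype.ext h5) h2))
  -- the points of `A`
  let S : Set A := {a | (a.1.1 : K) ∈ H ∨ ∃ x ∈ X, (a.1.1 : K) - x ∈ H}
  let P : Type := (Hs × Fin k) ⊕ {q : X × Hs × Fin k // (q.1 : K) + (q.2.1 : K) ∈ A' q.2.2}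
  let val : P → K × Fin k := Sum.elim (fun p => ((p.1 : K), p.2))
    (fun q => ((q.1.1 : K) + (q.1.2.1 : K), q.1.2.2))
  have hg : ∀ a : S, ∃ p : P, val p = ((a.1.1.1 : K), a.1.1.2) := by
    rintro ⟨a, ha⟩
    rcases ha with ha | ⟨x, hx, ha⟩
    · exact ⟨Sum.inl (⟨_, (hHs _).2 ha⟩, a.1.2), rfl⟩
    · have hxa : x + ((a.1.1 : K) - x) = (a.1.1 : K) := add_sub_cancel _ _
      refine ⟨Sum.inr ⟨(⟨x, hx⟩, ⟨_, (hHs _).2 ha⟩, a.1.2), ?_⟩, ?_⟩
      · change x + ((a.1.1 : K) - x) ∈ A' a.1.2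
        rw [hxa]
        exact (hAA a.1.2 (a.1.1 : K) a.1.1.2).2 a.2
      · change (x + ((a.1.1 : K) - x), a.1.2) = _
        rw [hxa]
  choose g hg using hg
  have hgi : Function.Injective g := by
    intro a b h
    have h1 : ((a.1.1.1 : K), a.1.1.2) = ((b.1.1.1 : K), b.1.1.2) := by
      rw [← hg a, ← hg b, h]
    have h2 : (a.1.1.1 : K) = (b.1.1.1 : K) := congrArg Prod.fst h1
    have h3 : (a.1.1.2 : Fin k) = (b.1.1.2 : Fin k) := (Prod.ext_iff.1 h1).2
    exact Subtype.ext (Subtype.ext (Prod.ext (Subtype.ext h2) h3))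
  have : Finite S := Finite.of_injective g hgi
  let _ : Fintype S := Fintype.ofFinite S
  -- linear independence on `S`
  have hli2 : LinearIndependent ℝ (fun q => c (f q)) := hli.comp f hfi
  have hsupp : ∀ q (a : A), c (f q) a ≠ 0 → a ∈ S := by
    intro q a h
    rcases hf3 q a h with h1 | h1
    · exact Or.inl h1
    · refine Or.inr ⟨(q.1.1 : K), q.1.1.2, ?_⟩
      have : (a.1.1 : K) - (q.1.1 : K) =
          ((a.1.1 : K) - ((q.1.1 : K) + (q.1.2.1 : K))) + (q.1.2.1 : K) := by abel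
      rw [this]
      exact H.add_mem h1 ((hHs _).1 q.1.2.1.2)
  have hli3 : LinearIndependent ℝ (fun q (a : S) => c (f q) a.1) := by
    rw [Fintype.linearIndependent_iff] at hli2 ⊢
    intro w hw
    refine hli2 w ?_
    ext a
    rw [Finsupp.finsetSum_apply]
    by_cases ha : a ∈ S
    · have := congrFun hw ⟨a, ha⟩
      simpa [Finset.sum_apply] using this
    · refine Finset.sum_eq_zero fun q _ => ?_
      have h0 : c (f q) a = 0 := by
        by_contra h
        exact ha (hsupp q a h)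
      simp [h0]
  have hcard := hli3.fintype_card_le_finrank
  rw [Module.finrank_fintype_fun_eq_card, card_triples k H Hs hHs X E] at hcard
  have hcard2 : Fintype.card S ≤ Fintype.card P := Fintype.card_le_of_injective g hgi
  have hP : Fintype.card P = Hs.card * k + ∑ x ∈ X, ∑ i, Set.ncard {h : K | h ∈ H ∧ x + h ∈ A' i} := by
    change Fintype.card ((Hs × Fin k) ⊕ {q : X × Hs × Fin k // (q.1 : K) + (q.2.1 : K) ∈ A' q.2.2}) = _
    rw [Fintype.card_sum, card_triples k H Hs hHs X A', Fintype.card_prod, Fintype.card_coe,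
      Fintype.card_fin]
  have hsum : ∑ x ∈ X, (∑ i, Set.ncard {h : K | h ∈ H ∧ x + h ∈ A' i} + 1) ≤
      ∑ x ∈ X, ∑ i, Set.ncard {h : K | h ∈ H ∧ x + h ∈ E i} :=
    Finset.sum_le_sum fun x hx => hXlt x hx
  rw [Finset.sum_add_distrib, Finset.sum_const, hXc, smul_eq_mul, mul_one, hHcard] at hsum
  have : k * Hs.card = Hs.card * k := mul_comm _ _
  omega

end Pool.Agent.LSG.H26
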